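import Pool.Agent.Helper74.UB.Goals3

set_option autoImplicit false

/-!
# UB, packet CONE: the cone over a set of faces of a plane map exists
-/

namespace Pool.Agent.Helper73.UB

open Finset Equiv Helper28.VF Pool.Agent.Helper74.UB
open scoped Classical

theorem inv_zpow {A B : Type} (f : Perm A) (g : A → B) (h : ∀ x, g (f x) = g x) (x y : A)
    (hs : f.SameCycle x y) : g x = g y := by
  have hn : ∀ (n : ℕ) (z : A), g ((f ^ n) z) = g z := by
    intro n
    induction n with
    | zero => intro z; simp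
    | succ n ih => intro z; rw [pow_succ', Perm.mul_apply, h, ih]
  obtain ⟨i, hi⟩ := hs
  obtain ⟨n, rfl | rfl⟩ := i.eq_nat_or_neg
  · rw [← hi, zpow_natCast, hn]
  · have h2 : (f ^ n) y = x := by
      rw [← hi, zpow_neg, zpow_natCast]
      simp
    rw [← h2, hn]

section
variable {D V E F : Type} [Fintype D] [Fintype V] [Fintype E] [Fintype F] (M : PM D V E F)
  (I : F → Prop)

/-- the face permutation -/
def fp : Perm D := M.σ * M.α

theorem fp_fc (d : D) : M.fc (fp M d) = M.fc d :=
  ((M.fc_iff _ _).2 ⟨1, by simp [fp]⟩).symm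

theorem fp_symm_fc (d : D) : M.fc ((fp M).symm d) = M.fc d := by
  have := fp_fc M ((fp M).symm d)
  rw [Equiv.apply_symm_apply] at this
  exact this.symm

theorem fp_al (d : D) : fp M (M.α d) = M.σ d := by
  simp [fp, M.α_inv]

/-- the darts of the faces of `I` -/
abbrev SD : Type := {d : D // I (M.fc d)}

/-- the face permutation on these darts -/
def ps : Perm (SD M I) where
  toFun s := ⟨fp M s.1, by rw [fp_fc]; exact s.2⟩
  invFun s := ⟨(fp M).symm s.1, by rw [fp_symm_fc]; exact s.2⟩
  left_inv s := by simp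
  right_inv s := by simp

/-- the face permutation of the cone, as a function -/
noncomputable def ph' : DC M I → DC M I
  | Sum.inl d => if h : I (M.fc d) then Sum.inr (ps M I ⟨d, h⟩, false) else Sum.inl (fp M d)
  | Sum.inr (x, false) => Sum.inr ((ps M I).symm x, true)
  | Sum.inr (x, true) => Sum.inl x.1

/-- its inverse -/
noncomputable def phi' : DC M I → DC M I
  | Sum.inl d => if h : I (M.fc d) then Sum.inr (⟨d, h⟩, true) else Sum.inl ((fp M).symm d)
  | Sum.inr (x, false) => Sum.inl ((ps M I).symm x).1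
  | Sum.inr (x, true) => Sum.inr (ps M I x, false)

theorem ph'_pos (d : D) (h : I (M.fc d)) :
    ph' M I (Sum.inl d) = Sum.inr (ps M I ⟨d, h⟩, false) := by
  simp only [ph', dif_pos h]

theorem ph'_neg (d : D) (h : ¬ I (M.fc d)) : ph' M I (Sum.inl d) = Sum.inl (fp M d) := by
  simp only [ph', dif_neg h]

theorem phi'_pos (d : D) (h : I (M.fc d)) :
    phi' M I (Sum.inl d) = Sum.inr (⟨d, h⟩, true) := by
  simp only [phi', dif_pos h]

theorem phi'_neg (d : D) (h : ¬ I (M.fc d)) : phi' M I (Sum.inl d) = Sum.inl ((fp M).symm d) := by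
  simp only [phi', dif_neg h]

theorem ph'_f (x : SD M I) : ph' M I (Sum.inr (x, false)) = Sum.inr ((ps M I).symm x, true) := rfl

theorem ph'_t (x : SD M I) : ph' M I (Sum.inr (x, true)) = Sum.inl x.1 := rfl

theorem phi'_f (x : SD M I) : phi' M I (Sum.inr (x, false)) = Sum.inl ((ps M I).symm x).1 := rfl

theorem phi'_t (x : SD M I) : phi' M I (Sum.inr (x, true)) = Sum.inr (ps M I x, false) := rfl

/-- the face permutation of the cone -/
noncomputable def pp : Perm (DC M I) where
  toFun := ph' M I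
  invFun := phi' M I
  left_inv x := by
    rcases x with d | ⟨x, _ | _⟩
    · by_cases h : I (M.fc d)
      · rw [ph'_pos M I d h, phi'_f, Equiv.symm_apply_apply]
      · rw [ph'_neg M I d h, phi'_neg M I _ (by rw [fp_fc]; exact h), Equiv.symm_apply_apply]
    · rw [ph'_f, phi'_t, Equiv.apply_symm_apply]
    · rw [ph'_t, phi'_pos M I _ x.2]
  right_inv x := by
    rcases x with d | ⟨x, _ | _⟩
    · by_cases h : I (M.fc d)
      · rw [phi'_pos M I d h, ph'_t]
      · rw [phi'_neg M I d h, ph'_neg M I _ (by rw [fp_symm_fc]; exact h), Equiv.apply_symm_apply]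
    · rw [phi'_f, ph'_pos M I _ ((ps M I).symm x).2]
      simp only [Subtype.coe_eta, Equiv.apply_symm_apply]
    · rw [phi'_t, ph'_f, Equiv.symm_apply_apply]

theorem pp_pos (d : D) (h : I (M.fc d)) :
    pp M I (Sum.inl d) = Sum.inr (ps M I ⟨d, h⟩, false) := ph'_pos M I d h

theorem pp_neg (d : D) (h : ¬ I (M.fc d)) : pp M I (Sum.inl d) = Sum.inl (fp M d) :=
  ph'_neg M I d h

theorem pp_f (x : SD M I) : pp M I (Sum.inr (x, false)) = Sum.inr ((ps M I).symm x, true) := rfl

theorem pp_t (x : SD M I) : pp M I (Sum.inr (x, true)) = Sum.inl x.1 := rfl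

/-- the reversal -/
def aa : Perm (DC M I) where
  toFun
    | Sum.inl d => Sum.inl (M.α d)
    | Sum.inr (x, b) => Sum.inr (x, !b)
  invFun
    | Sum.inl d => Sum.inl (M.α d)
    | Sum.inr (x, b) => Sum.inr (x, !b)
  left_inv x := by rcases x with d | ⟨x, b⟩ <;> simp [M.α_inv]
  right_inv x := by rcases x with d | ⟨x, b⟩ <;> simp [M.α_inv]

theorem aa_l (d : D) : aa M I (Sum.inl d) = Sum.inl (M.α d) := rfl

theorem aa_r (x : SD M I) (b : Bool) : aa M I (Sum.inr (x, b)) = Sum.inr (x, !b) := rfl

theorem aa_aa (x : DC M I) : aa M I (aa M I x) = x := by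
  rcases x with d | ⟨x, b⟩
  · simp [aa_l, M.α_inv]
  · simp [aa_r]

/-- the vertices -/
def vv : DC M I → VC V I
  | Sum.inl d => Sum.inl (M.vt d)
  | Sum.inr (x, false) => Sum.inl (M.vt x.1)
  | Sum.inr (x, true) => Sum.inr ⟨M.fc x.1, x.2⟩

/-- the edges -/
def ee : DC M I → E ⊕ SD M I
  | Sum.inl d => Sum.inl (M.ed d)
  | Sum.inr (x, _) => Sum.inr x

/-- the faces -/
noncomputable def ff : DC M I → {f : F // ¬ I f} ⊕ SD M I
  | Sum.inl d => if h : I (M.fc d) then Sum.inr ⟨d, h⟩ else Sum.inl ⟨M.fc d, h⟩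
  | Sum.inr (x, false) => Sum.inr ((ps M I).symm x)
  | Sum.inr (x, true) => Sum.inr x

theorem ff_pos (d : D) (h : I (M.fc d)) : ff M I (Sum.inl d) = Sum.inr ⟨d, h⟩ := by
  simp only [ff, dif_pos h]

theorem ff_neg (d : D) (h : ¬ I (M.fc d)) : ff M I (Sum.inl d) = Sum.inl ⟨M.fc d, h⟩ := by
  simp only [ff, dif_neg h]

theorem ff_f (x : SD M I) : ff M I (Sum.inr (x, false)) = Sum.inr ((ps M I).symm x) := rfl

theorem ff_t (x : SD M I) : ff M I (Sum.inr (x, true)) = Sum.inr x := rfl

/-- the rotation -/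
noncomputable def ss : Perm (DC M I) := pp M I * aa M I

theorem ss_apply (x : DC M I) : ss M I x = pp M I (aa M I x) := rfl

theorem ss_aa : ss M I * aa M I = pp M I := by
  ext x
  rw [Perm.mul_apply, ss_apply, aa_aa]

theorem ss_pos (d : D) (h : I (M.fc (M.α d))) (h' : I (M.fc (M.σ d))) :
    ss M I (Sum.inl d) = Sum.inr (⟨M.σ d, h'⟩, false) := by
  rw [ss_apply, aa_l, pp_pos M I _ h]
  congr 2
  apply Subtype.ext
  exact fp_al M d

theorem ss_neg (d : D) (h : ¬ I (M.fc (M.α d))) : ss M I (Sum.inl d) = Sum.inl (M.σ d) := by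
  rw [ss_apply, aa_l, pp_neg M I _ h, fp_al]

theorem ss_f (x : SD M I) : ss M I (Sum.inr (x, false)) = Sum.inl x.1 := rfl

theorem ss_t (x : SD M I) : ss M I (Sum.inr (x, true)) = Sum.inr ((ps M I).symm x, true) := rfl

theorem fc_sig (d : D) : M.fc (M.σ d) = M.fc (M.α d) := by
  rw [← fp_al, fp_fc]

theorem vt_sig (d : D) : M.vt (M.σ d) = M.vt d :=
  ((M.vt_iff _ _).2 ⟨1, by simp⟩).symm

theorem vv_ss (x : DC M I) : vv M I (ss M I x) = vv M I x := by
  rcases x with d | ⟨x, _ | _⟩
  · by_cases h : I (M.fc (M.α d))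
    · rw [ss_pos M I d h (by rw [fc_sig]; exact h)]
      change (Sum.inl (M.vt (M.σ d)) : VC V I) = Sum.inl (M.vt d)
      rw [vt_sig]
    · rw [ss_neg M I d h]
      change (Sum.inl (M.vt (M.σ d)) : VC V I) = Sum.inl (M.vt d)
      rw [vt_sig]
  · rfl
  · rw [ss_t]
    change (Sum.inr ⟨M.fc ((ps M I).symm x).1, ((ps M I).symm x).2⟩ : VC V I) =
      Sum.inr ⟨M.fc x.1, x.2⟩
    congr 1
    apply Subtype.ext
    exact fp_symm_fc M x.1

theorem ff_pp (x : DC M I) : ff M I (pp M I x) = ff M I x := by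
  rcases x with d | ⟨x, _ | _⟩
  · by_cases h : I (M.fc d)
    · rw [pp_pos M I d h, ff_f, Equiv.symm_apply_apply, ff_pos M I d h]
    · rw [pp_neg M I d h, ff_neg M I _ (by rw [fp_fc]; exact h), ff_neg M I d h]
      congr 1
      apply Subtype.ext
      exact fp_fc M d
  · rw [pp_f, ff_t, ff_f]
  · rw [pp_t, ff_pos M I _ x.2, ff_t]

theorem sc1 {A : Type} (f : Perm A) (x : A) : f.SameCycle x (f x) := ⟨1, by simp⟩

theorem ss_step (d : D) : (ss M I).SameCycle (Sum.inl d) (Sum.inl (M.σ d)) := by
  by_cases h : I (M.fc (M.α d))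
  · have h1 := sc1 (ss M I) (Sum.inl d)
    rw [ss_pos M I d h (by rw [fc_sig]; exact h)] at h1
    have h2 := sc1 (ss M I) (Sum.inr (⟨M.σ d, by rw [fc_sig]; exact h⟩, false))
    rw [ss_f] at h2
    exact h1.trans h2
  · have h1 := sc1 (ss M I) (Sum.inl d)
    rw [ss_neg M I d h] at h1
    exact h1

theorem ss_inl : ∀ (n : ℕ) (d : D), (ss M I).SameCycle (Sum.inl d) (Sum.inl ((M.σ ^ n) d)) := by
  intro n
  induction n with
  | zero => intro d; exact Perm.SameCycle.refl _ _
  | succ n ih =>
    intro d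
    rw [pow_succ, Perm.mul_apply]
    exact (ss_step M I d).trans (ih (M.σ d))

theorem ss_inr : ∀ (n : ℕ) (a b : SD M I), ((fp M) ^ n) a.1 = b.1 →
    (ss M I).SameCycle (Sum.inr (a, true)) (Sum.inr (b, true)) := by
  intro n
  induction n with
  | zero =>
    intro a b h
    have : a = b := Subtype.ext (by simpa using h)
    rw [this]
  | succ n ih =>
    intro a b h
    rw [pow_succ, Perm.mul_apply] at h
    have h1 := ih (ps M I a) b h
    have h2 := sc1 (ss M I) (Sum.inr (ps M I a, true))
    rw [ss_t, Equiv.symm_apply_apply] at h2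
    exact h2.symm.trans h1

theorem pp_inl : ∀ (n : ℕ) (d : D), ¬ I (M.fc d) →
    (pp M I).SameCycle (Sum.inl d) (Sum.inl (((fp M) ^ n) d)) := by
  intro n
  induction n with
  | zero => intro d _; exact Perm.SameCycle.refl _ _
  | succ n ih =>
    intro d h
    rw [pow_succ, Perm.mul_apply]
    have h1 := sc1 (pp M I) (Sum.inl d)
    rw [pp_neg M I d h] at h1
    exact h1.trans (ih (fp M d) (by rw [fp_fc]; exact h))

theorem pp_rep (x : DC M I) (s : SD M I) (h : ff M I x = Sum.inr s) :
    (pp M I).SameCycle x (Sum.inl s.1) := by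
  rcases x with d | ⟨x, _ | _⟩
  · by_cases hd : I (M.fc d)
    · rw [ff_pos M I d hd] at h
      have := Sum.inr_injective h
      rw [← this]
    · rw [ff_neg M I d hd] at h
      exact absurd h (by simp)
  · rw [ff_f] at h
    have h0 := Sum.inr_injective h
    have h1 := sc1 (pp M I) (Sum.inr (x, false))
    rw [pp_f] at h1
    have h2 := sc1 (pp M I) (Sum.inr ((ps M I).symm x, true))
    rw [pp_t] at h2
    rw [← h0]
    exact h1.trans h2
  · rw [ff_t] at h
    have h0 := Sum.inr_injective h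
    have h1 := sc1 (pp M I) (Sum.inr (x, true))
    rw [pp_t] at h1
    rw [← h0]
    exact h1

theorem ff_iff (x y : DC M I) : ff M I x = ff M I y ↔ (ss M I * aa M I).SameCycle x y := by
  rw [ss_aa]
  constructor
  · intro h
    rcases hx : ff M I x with f | s
    · have hy : ff M I y = Sum.inl f := by rw [← h, hx]
      have key : ∀ z : DC M I, ff M I z = Sum.inl f → ∃ d, z = Sum.inl d ∧ M.fc d = f.1 := by
        intro z hz
        rcases z with d | ⟨z, _ | _⟩
        · by_cases hd : I (M.fc d)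
          · rw [ff_pos M I d hd] at hz
            exact absurd hz (by simp)
          · rw [ff_neg M I d hd] at hz
            exact ⟨d, rfl, congrArg Subtype.val (Sum.inl_injective hz)⟩
        · rw [ff_f] at hz
          exact absurd hz (by simp)
        · rw [ff_t] at hz
          exact absurd hz (by simp)
      obtain ⟨d, rfl, hd⟩ := key x hx
      obtain ⟨e, rfl, he⟩ := key y hy
      have hde : M.fc d = M.fc e := by rw [hd, he]
      have hs : (fp M).SameCycle d e := (M.fc_iff d e).1 hde
      obtain ⟨n, hn⟩ := hs.exists_nat_pow_eq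
      rw [← hn]
      exact pp_inl M I n d (by rw [hd]; exact f.2)
    · exact (pp_rep M I x s hx).trans (pp_rep M I y s (by rw [← h, hx])).symm
  · exact inv_zpow (pp M I) (ff M I) (ff_pp M I) x y

theorem vv_iff (x y : DC M I) : vv M I x = vv M I y ↔ (ss M I).SameCycle x y := by
  constructor
  · intro h
    rcases hx : vv M I x with v | q
    · have key : ∀ z : DC M I, vv M I z = Sum.inl v →
          ∃ d, (ss M I).SameCycle z (Sum.inl d) ∧ M.vt d = v := by
        intro z hz
        rcases z with d | ⟨z, _ | _⟩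
        · exact ⟨d, Perm.SameCycle.refl _ _, Sum.inl_injective hz⟩
        · refine ⟨z.1, ?_, Sum.inl_injective hz⟩
          exact sc1 (ss M I) (Sum.inr (z, false))
        · exact absurd hz (by simp [vv])
      obtain ⟨d, hd, hdv⟩ := key x hx
      obtain ⟨e, he, hev⟩ := key y (by rw [← h, hx])
      have hs : M.σ.SameCycle d e := (M.vt_iff d e).1 (by rw [hdv, hev])
      obtain ⟨n, hn⟩ := hs.exists_nat_pow_eq
      have h3 := ss_inl M I n d
      rw [hn] at h3
      exact (hd.trans h3).trans he.symm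
    · have key : ∀ z : DC M I, vv M I z = Sum.inr q →
          ∃ s : SD M I, z = Sum.inr (s, true) ∧ M.fc s.1 = q.1 := by
        intro z hz
        rcases z with d | ⟨z, _ | _⟩
        · exact absurd hz (by simp [vv])
        · exact absurd hz (by simp [vv])
        · exact ⟨z, rfl, congrArg Subtype.val (Sum.inr_injective hz)⟩
      obtain ⟨s, rfl, hs⟩ := key x hx
      obtain ⟨t, rfl, ht⟩ := key y (by rw [← h, hx])
      have hc : (fp M).SameCycle s.1 t.1 := (M.fc_iff _ _).1 (by rw [hs, ht])
      obtain ⟨n, hn⟩ := hc.exists_nat_pow_eq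
      exact ss_inr M I n s t hn
  · exact inv_zpow (ss M I) (vv M I) (vv_ss M I) x y

theorem conn' (P : DC M I → Prop) (h0 : ∃ d, P d) (h1 : ∀ d, P d → P (ss M I d))
    (h2 : ∀ d, P d → P (aa M I d)) : ∀ d, P d := by
  have hf : ∀ s : SD M I, P (Sum.inr (s, false)) → P (Sum.inl s.1) := fun s hs => h1 _ hs
  have hl : ∃ d, P (Sum.inl d) := by
    obtain ⟨x, hx⟩ := h0
    rcases x with d | ⟨x, _ | _⟩
    · exact ⟨d, hx⟩
    · exact ⟨x.1, hf x hx⟩
    · exact ⟨x.1, hf x (h2 _ hx)⟩
  have hσ : ∀ d, P (Sum.inl d) → P (Sum.inl (M.σ d)) := by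
    intro d hd
    have h := h1 _ hd
    by_cases hi : I (M.fc (M.α d))
    · rw [ss_pos M I d hi (by rw [fc_sig]; exact hi)] at h
      exact hf _ h
    · rw [ss_neg M I d hi] at h
      exact h
  have hall : ∀ d, P (Sum.inl d) :=
    M.conn (fun d => P (Sum.inl d)) hl hσ fun d hd => h2 _ hd
  have hfa : ∀ s : SD M I, P (Sum.inr (s, false)) := by
    intro s
    have h := h1 _ (hall (M.σ.symm s.1))
    have hi : I (M.fc (M.α (M.σ.symm s.1))) := by
      rw [← fc_sig, Equiv.apply_symm_apply]
      exact s.2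
    rw [ss_pos M I _ hi (by rw [Equiv.apply_symm_apply]; exact s.2)] at h
    have e : (⟨M.σ (M.σ.symm s.1), by rw [Equiv.apply_symm_apply]; exact s.2⟩ : SD M I) = s :=
      Subtype.ext (Equiv.apply_symm_apply _ _)
    rw [e] at h
    exact h
  intro x
  rcases x with d | ⟨x, _ | _⟩
  · exact hall d
  · exact hfa x
  · exact h2 _ (hfa x)

/-- the cone -/
noncomputable def cn : PM (DC M I) (VC V I) (E ⊕ SD M I) ({f : F // ¬ I f} ⊕ SD M I) where
  σ := ss M I
  α := aa M I
  vt := vv M I
  ed := ee M I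
  fc := ff M I
  α_inv := aa_aa M I
  α_ne x := by
    rcases x with d | ⟨x, b⟩
    · rw [aa_l]
      exact fun h => M.α_ne d (Sum.inl_injective h)
    · rw [aa_r]
      intro h
      have := congrArg Prod.snd (Sum.inr_injective h)
      simp at this
  vt_iff := vv_iff M I
  ed_iff x y := by
    rcases x with d | ⟨x, b⟩ <;> rcases y with e | ⟨y, c⟩
    · simp only [ee, aa_l, Sum.inl.injEq]
      exact M.ed_iff d e
    · simp [ee, aa_l]
    · simp [ee, aa_r]
    · simp only [ee, aa_r, Sum.inr.injEq, Prod.mk.injEq]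
      cases b <;> cases c <;> simp [eq_comm]
  fc_iff := ff_iff M I
  vt_surj x := by
    rcases x with v | q
    · obtain ⟨d, hd⟩ := M.vt_surj v
      exact ⟨Sum.inl d, by simp [vv, hd]⟩
    · obtain ⟨d, hd⟩ := M.fc_surj q.1
      exact ⟨Sum.inr (⟨d, by rw [hd]; exact q.2⟩, true), by
        change (Sum.inr ⟨M.fc d, _⟩ : VC V I) = Sum.inr q
        congr 1
        exact Subtype.ext hd⟩
  ed_surj x := by
    rcases x with v | s
    · obtain ⟨d, hd⟩ := M.ed_surj v
      exact ⟨Sum.inl d, by simp [ee, hd]⟩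
    · exact ⟨Sum.inr (s, true), rfl⟩
  fc_surj x := by
    rcases x with f | s
    · obtain ⟨d, hd⟩ := M.fc_surj f.1
      refine ⟨Sum.inl d, ?_⟩
      rw [ff_neg M I d (by rw [hd]; exact f.2)]
      congr 1
      exact Subtype.ext hd
    · exact ⟨Sum.inr (s, true), rfl⟩
  conn := conn' M I
  euler := by
    have h1 := M.euler
    have h2 : Fintype.card {f : F // I f} + Fintype.card {f : F // ¬ I f} = Fintype.card F := by
      rw [← Fintype.card_sum]
      exact Fintype.card_congr (Equiv.sumCompl I)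
    rw [Fintype.card_sum, Fintype.card_sum, Fintype.card_sum]
    omega

theorem ph_cn (x : DC M I) : ph (cn M I) x = pp M I x := by
  change ss M I (aa M I x) = pp M I x
  rw [ss_apply, aa_aa]

theorem isCone : IsCone M I (cn M I) where
  vl _ := rfl
  vf _ := rfl
  vtr _ := rfl
  al _ := rfl
  ar _ _ := rfl
  po d h := by
    rw [ph_cn, pp_neg M I d h]
    rfl
  pi d h a := by
    rw [ph_cn, pp_pos M I d h]
    rfl
  pf d b a := by
    rw [ph_cn, pp_f]
    congr 2
    rw [Equiv.symm_apply_eq]
    rfl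
  pt d := by
    rw [ph_cn, pp_t]
  fo d h x := by
    change ff M I x = ff M I (Sum.inl d) ↔ _
    rw [ff_neg M I d h]
    constructor
    · intro hx
      rcases x with e | ⟨x, _ | _⟩
      · by_cases he : I (M.fc e)
        · rw [ff_pos M I e he] at hx
          exact absurd hx (by simp)
        · rw [ff_neg M I e he] at hx
          exact ⟨e, rfl, congrArg Subtype.val (Sum.inl_injective hx)⟩
      · rw [ff_f] at hx
        exact absurd hx (by simp)
      · rw [ff_t] at hx
        exact absurd hx (by simp)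
    · rintro ⟨e, rfl, he⟩
      rw [ff_neg M I e (by rw [he]; exact h)]
      congr 1
      exact Subtype.ext he
  fi d b a x := by
    change ff M I x = ff M I (Sum.inl d) ↔ _
    rw [ff_pos M I d b]
    have hps : (ps M I).symm ⟨ph M d, a⟩ = ⟨d, b⟩ := by
      rw [Equiv.symm_apply_eq]
      rfl
    constructor
    · intro hx
      rcases x with e | ⟨x, _ | _⟩
      · left
        by_cases he : I (M.fc e)
        · rw [ff_pos M I e he] at hx
          exact congrArg Sum.inl (congrArg Subtype.val (Sum.inr_injective hx))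
        · rw [ff_neg M I e he] at hx
          exact absurd hx (by simp)
      · right; left
        rw [ff_f] at hx
        have h1 := Sum.inr_injective hx
        rw [← hps] at h1
        rw [(ps M I).symm.injective h1]
      · right; right
        rw [ff_t] at hx
        rw [Sum.inr_injective hx]
    · rintro (rfl | rfl | rfl)
      · rw [ff_pos M I d b]
      · rw [ff_f, hps]
      · rw [ff_t]

end

theorem cone : StmtCone := by
  intro D V E F _ _ _ _ M I
  exact ⟨E ⊕ SD M I, {f : F // ¬ I f} ⊕ SD M I, inferInstance, inferInstance, cn M I, isCone M I⟩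

end Pool.Agent.Helper73.UB
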